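import Pool.Agent.Lib.H94C.AC
import Pool.Agent.Lib.H98M.M0

/-!
# H71V, file GV: the good vertex lemma for swap closed acyclic sets of arcs

`D` is a set of arcs, `r` a rank which increases along every arc, and `D` is swap closed: if two arcs `(i, j)`,
`(k, l)` cross, then `(i, l)` and `(k, j)` are arcs. Every vertex except `t` has an arc out, every vertex except `s`
has an arc in. `cross` is symmetric, adjacent edges do not cross, at most one of the three pairs of a 4-set crosses,
and `SepP` (the small triangle of a crossing separates). Then `H94C.GV cross r D`.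

PROOF (six points, by induction on the set of tails). Let `b` be a head of minimal rank of the swap closed `Y ⊆ D`,
`L` a set of tails `i` with `(i, b) ∈ Y`, `Z` a plane set of arcs of `Y` with tails in `L` and heads `≠ b`. Let `j` be
a tail of `L` of maximal rank. If `(j, b)` is crossed by `(i0, l0) ∈ Z`, take by induction `i ∈ L - j` with `(i, b)`
free for the arcs of `Z` with tail `≠ j`. If `(j, l) ∈ Z` crosses `(i, b)`: in the small triangle of this crossing
at the side `j b` the ends `i0`, `l0` are on different sides. `l` and `l0` are on the side of `t`: go down along arcs;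
an arc `(x, y)` with `r b ≤ r x`, `x ≠ b` crosses neither `(i, b)` nor `(j, b)` (the swap would give `(x, b)`), and if
it crosses `(j, l)` then `(x, l)` is an arc. In the same way `i` and `i0` are on the side of `s`. And `i`, `l` are on
the same side. Contradiction.
-/

set_option autoImplicit false
set_option linter.unusedSectionVars false

namespace H71V

open Finset H98M H94C

variable {V : Type*} [Fintype V] [DecidableEq V]

/-- the separation property of the crossing relation of a simple drawing -/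
def SepP (cross : Sym2 V → Sym2 V → Prop) : Prop :=
  ∀ w w' z z' : V, cross s(w, w') s(z, z') → ∃ h : V → ZMod 2, ∀ y y', y ≠ y' →
    y ≠ w → y ≠ z → y' ≠ w → y' ≠ z → ¬ cross s(y, y') s(w, w') → ¬ cross s(y, y') s(z, z') →
    cr cross s(y, y') s(w, z) = h y + h y'

/-- a swap closed set of arcs along which `r` increases, with source `s` and sink `t` -/
structure Net (cross : Sym2 V → Sym2 V → Prop) (r : V → ℕ) (s t : V) (D : Finset (V × V)) : Prop where
  inc : ∀ i j, (i, j) ∈ D → r i < r j
  swp : Swp cross D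
  out : ∀ v, v ≠ t → ∃ w, (v, w) ∈ D
  inn : ∀ v, v ≠ s → ∃ w, (w, v) ∈ D

variable {cross : Sym2 V → Sym2 V → Prop}

private theorem ne_of_rank {r : V → ℕ} {x y : V} (h : r x < r y) : x ≠ y := by
  rintro rfl
  exact lt_irrefl _ h

/-- The forbidden pattern of six points. -/
theorem pat (hs : ∀ e f, cross e f → cross f e) (ha : ∀ a b c, ¬ cross s(a, b) s(a, c))
    (ho : ∀ a b c d, cross s(a, b) s(c, d) → ¬ cross s(a, c) s(b, d)) (hp : SepP cross) {r : V → ℕ} {s t : V}
    {D : Finset (V × V)} (hD : Net cross r s t D) {i i0 j b l l0 : V} (h1 : (i, b) ∈ D) (h2 : (j, b) ∈ D)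
    (h3 : (j, l) ∈ D) (h4 : (i0, l0) ∈ D) (hi : r i ≤ r j) (hij : i ≠ j) (hi0 : r i0 ≤ r j) (hi0j : i0 ≠ j)
    (hl : r b ≤ r l) (hlb : l ≠ b) (hl0 : r b ≤ r l0) (hl0b : l0 ≠ b) (x1 : cross s(i, b) s(j, l))
    (x2 : cross s(i0, l0) s(j, b)) (x3 : ¬ cross s(i0, l0) s(i, b)) (x4 : ¬ cross s(i0, l0) s(j, l)) : False := by
  obtain ⟨g, hg⟩ := hp b i j l (by rw [Sym2.eq_swap (a := b)]; exact x1)
  have hjb : r j < r b := hD.inc _ _ h2
  obtain ⟨M, hM⟩ : ∃ M : ℕ, ∀ v, r v ≤ M := ⟨univ.sup r, fun v => le_sup (mem_univ v)⟩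
  -- arcs behind `b`
  have dn : ∀ x y, (x, y) ∈ D → r b ≤ r x → x ≠ b → ¬ cross s(x, y) s(j, l) → g x = g y := by
    intro x y hxy hx hxb hc
    have hlt := hD.inc _ _ hxy
    have n1 : ¬ cross s(x, y) s(b, i) := by
      intro h
      rw [Sym2.eq_swap (a := b)] at h
      have := hD.inc _ _ (hD.swp x y i b hxy h1 h)
      omega
    have n2 : ¬ cross s(x, y) s(b, j) := by
      intro h
      rw [Sym2.eq_swap (a := b)] at h
      have := hD.inc _ _ (hD.swp x y j b hxy h2 h)
      omega
    have e := hg x y (ne_of_rank hlt) hxb (ne_of_rank (hjb.trans_le hx)).symm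
      (ne_of_rank (hx.trans_lt hlt)).symm (ne_of_rank ((hjb.trans_le hx).trans hlt)).symm n1 hc
    rw [cr_zero n2] at e
    exact CharTwo.add_eq_zero.1 e.symm
  have dn' : ∀ x y, (x, y) ∈ D → r b ≤ r x → x ≠ b → cross s(x, y) s(j, l) → (x, l) ∈ D ∧ g x = g l := by
    intro x y hxy hx hxb hc
    have hxl := hD.swp x y j l hxy h3 hc
    refine ⟨hxl, dn x l hxl hx hxb ?_⟩
    rw [Sym2.eq_swap (a := x), Sym2.eq_swap (a := j)]
    exact ha l x j
  have clA : ∀ m x, M < r x + m → r b ≤ r x → x ≠ b → r l ≤ r x → g x = g t := by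
    intro m
    induction m with
    | zero =>
      intro x hx
      have := hM x
      omega
    | succ m ih =>
      intro x hx hx1 hx2 hx3
      by_cases hxt : x = t
      · rw [hxt]
      · obtain ⟨y, hy⟩ := hD.out x hxt
        have hlt := hD.inc _ _ hy
        have hc : ¬ cross s(x, y) s(j, l) := by
          intro h
          have := hD.inc _ _ (dn' x y hy hx1 hx2 h).1
          omega
        rw [dn x y hy hx1 hx2 hc]
        exact ih y (by omega) (by omega) (ne_of_rank (hx1.trans_lt hlt)).symm (by omega)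
  have hlt : g l = g t := clA (M + 1) l (by omega) hl hlb le_rfl
  have clB : ∀ m x, M < r x + m → r b ≤ r x → x ≠ b → g x = g t := by
    intro m
    induction m with
    | zero =>
      intro x hx
      have := hM x
      omega
    | succ m ih =>
      intro x hx hx1 hx2
      by_cases hxt : x = t
      · rw [hxt]
      · obtain ⟨y, hy⟩ := hD.out x hxt
        have hlt' := hD.inc _ _ hy
        by_cases hc : cross s(x, y) s(j, l)
        · rw [(dn' x y hy hx1 hx2 hc).2, hlt]
        · rw [dn x y hy hx1 hx2 hc]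
          exact ih y (by omega) (by omega) (ne_of_rank (hx1.trans_lt hlt')).symm
  have hl0t : g l0 = g t := clB (M + 1) l0 (by omega) hl0 hl0b
  -- arcs before `j`
  have up : ∀ x y, (x, y) ∈ D → r y ≤ r j → y ≠ j → ¬ cross s(x, y) s(i, b) → g x = g y := by
    intro x y hxy hy hyj hc
    have hlt := hD.inc _ _ hxy
    have n1 : ¬ cross s(x, y) s(b, i) := by
      rw [Sym2.eq_swap (a := b)]
      exact hc
    have n2 : ¬ cross s(x, y) s(j, l) := by
      intro h
      have := hD.inc _ _ (hD.swp j l x y h3 hxy (hs _ _ h))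
      omega
    have n3 : ¬ cross s(x, y) s(b, j) := by
      intro h
      rw [Sym2.eq_swap (a := b)] at h
      have := hD.inc _ _ (hD.swp j b x y h2 hxy (hs _ _ h))
      omega
    have e := hg x y (ne_of_rank hlt) (ne_of_rank (r := r) (by omega)) (ne_of_rank (r := r) (by omega)) (ne_of_rank (r := r) (by omega)) hyj
      n1 n2
    rw [cr_zero n3] at e
    exact CharTwo.add_eq_zero.1 e.symm
  have up' : ∀ x y, (x, y) ∈ D → r y ≤ r j → y ≠ j → cross s(x, y) s(i, b) → (i, y) ∈ D ∧ g i = g y := by
    intro x y hxy hy hyj hc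
    have hiy := hD.swp i b x y h1 hxy (hs _ _ hc)
    exact ⟨hiy, up i y hiy hy hyj (ha i y b)⟩
  have clA' : ∀ m y, r y < m → r y ≤ r j → y ≠ j → r y ≤ r i → g y = g s := by
    intro m
    induction m with
    | zero =>
      intro y hy
      omega
    | succ m ih =>
      intro y hy hy1 hy2 hy3
      by_cases hys : y = s
      · rw [hys]
      · obtain ⟨x, hx⟩ := hD.inn y hys
        have hlt := hD.inc _ _ hx
        have hc : ¬ cross s(x, y) s(i, b) := by
          intro h
          have := hD.inc _ _ (up' x y hx hy1 hy2 h).1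
          omega
        rw [← up x y hx hy1 hy2 hc]
        exact ih x (by omega) (by omega) (ne_of_rank (r := r) (by omega)) (by omega)
  have his : g i = g s := clA' (r i + 1) i (by omega) hi hij le_rfl
  have clB' : ∀ m y, r y < m → r y ≤ r j → y ≠ j → g y = g s := by
    intro m
    induction m with
    | zero =>
      intro y hy
      omega
    | succ m ih =>
      intro y hy hy1 hy2
      by_cases hys : y = s
      · rw [hys]
      · obtain ⟨x, hx⟩ := hD.inn y hys
        have hlt := hD.inc _ _ hx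
        by_cases hc : cross s(x, y) s(i, b)
        · rw [← (up' x y hx hy1 hy2 hc).2, his]
        · rw [← up x y hx hy1 hy2 hc]
          exact ih x (by omega) (by omega) (ne_of_rank (r := r) (by omega))
  have hi0s : g i0 = g s := clB' (r i0 + 1) i0 (by omega) hi0 hi0j
  -- the four values
  have hil0 := hD.inc _ _ h4
  have hib := hD.inc _ _ h1
  have e1 : g i0 + g l0 = 1 := by
    rw [← hg i0 l0 (ne_of_rank hil0) (ne_of_rank (r := r) (by omega)) hi0j hl0b (ne_of_rank (r := r) (by omega)).symm
      (by rw [Sym2.eq_swap (a := b)]; exact x3) x4]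
    exact cr_one (by rw [Sym2.eq_swap (a := b)]; exact x2)
  have e4 : g i = g l := by
    have h5 := hg i l (ne_of_rank (r := r) (by omega)) (ne_of_rank (r := r) (by omega)) hij hlb (ne_of_rank (r := r) (by omega)).symm
      (by rw [Sym2.eq_swap (a := b)]; exact ha i l b)
      (by rw [Sym2.eq_swap (a := i), Sym2.eq_swap (a := j)]; exact ha l i j)
    rw [cr_zero (ho i b l j (by rw [Sym2.eq_swap (a := l)]; exact x1))] at h5
    exact CharTwo.add_eq_zero.1 h5.symm
  rw [hi0s, ← his, e4, hlt, hl0t, CharTwo.add_self_eq_zero] at e1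
  exact zero_ne_one e1

/-- THE GOOD VERTEX LEMMA for swap closed acyclic sets of arcs. -/
theorem good_vertex (hs : ∀ e f, cross e f → cross f e) (ha : ∀ a b c, ¬ cross s(a, b) s(a, c))
    (ho : ∀ a b c d, cross s(a, b) s(c, d) → ¬ cross s(a, c) s(b, d)) (hp : SepP cross) {r : V → ℕ} {s t : V}
    {D : Finset (V × V)} (hD : Net cross r s t D) : GV cross r D := by
  intro Y hYD hYs b hb hmin H hHY hpl hHb
  have key : ∀ (m : ℕ) (L : Finset V), L.card = m → L.Nonempty → (∀ i ∈ L, (i, b) ∈ Y) →
      ∀ Z : Finset (V × V), (∀ z ∈ Z, z ∈ H ∧ z.1 ∈ L) → ∃ i ∈ L, ∀ z ∈ Z, ¬ cross s(i, b) s(z.1, z.2) := by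
    intro m
    induction m with
    | zero =>
      intro L hL hne
      rw [Finset.card_eq_zero] at hL
      rw [hL] at hne
      exact absurd hne Finset.not_nonempty_empty
    | succ m ih =>
      intro L hL hne hLb Z hZ
      obtain ⟨j, hj, hjmax⟩ := Finset.exists_max_image L r hne
      by_cases hfree : ∀ z ∈ Z, ¬ cross s(j, b) s(z.1, z.2)
      · exact ⟨j, hj, hfree⟩
      · push Not at hfree
        obtain ⟨z0, hz0, hx0⟩ := hfree
        have hz0j : z0.1 ≠ j := by
          intro h1
          rw [h1] at hx0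
          exact ha j b z0.2 hx0
        obtain ⟨i, hi, hifree⟩ := ih (L.erase j) (by rw [card_erase_of_mem hj, hL]; rfl)
          ⟨z0.1, mem_erase.2 ⟨hz0j, (hZ z0 hz0).2⟩⟩ (fun i hi => hLb i (mem_of_mem_erase hi))
          (Z.filter fun z => z.1 ≠ j) (fun z hz => by
            rw [mem_filter] at hz
            exact ⟨(hZ z hz.1).1, mem_erase.2 ⟨hz.2, (hZ z hz.1).2⟩⟩)
        refine ⟨i, mem_of_mem_erase hi, fun z hz hx => ?_⟩
        by_cases hzj : z.1 = j
        · have hzH := (hZ z hz).1
          have hz0H := (hZ z0 hz0).1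
          have hx' : cross s(i, b) s(j, z.2) := by
            rw [← hzj]
            exact hx
          refine pat hs ha ho hp hD (i := i) (i0 := z0.1) (j := j) (b := b) (l := z.2) (l0 := z0.2)
            (hYD (hLb i (mem_of_mem_erase hi))) (hYD (hLb j hj)) ?_ (hYD (hHY hz0H))
            (hjmax i (mem_of_mem_erase hi)) (ne_of_mem_erase hi) (hjmax _ (hZ z0 hz0).2) hz0j
            (hmin _ (hHY hzH)) (hHb _ hzH) (hmin _ (hHY hz0H)) (hHb _ hz0H) hx' (hs _ _ hx0)
            (fun h6 => hifree z0 (mem_filter.2 ⟨hz0, hz0j⟩) (hs _ _ h6)) (fun h6 => ?_)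
          · rw [← hzj]
            exact hYD (hHY hzH)
          · rw [← hzj] at h6
            exact hpl z0 hz0H z hzH h6
        · exact hifree z (mem_filter.2 ⟨hz, hzj⟩) hx
  obtain ⟨a, hab⟩ := hb
  obtain ⟨i, hi, hfree⟩ := key _ (univ.filter fun i => (i, b) ∈ Y) rfl ⟨a, mem_filter.2 ⟨mem_univ _, hab⟩⟩
    (fun i hi => (mem_filter.1 hi).2) (H.filter fun z => (z.1, b) ∈ Y)
    (fun z hz => ⟨(mem_filter.1 hz).1, mem_filter.2 ⟨mem_univ _, (mem_filter.1 hz).2⟩⟩)
  refine ⟨i, (mem_filter.1 hi).2, fun e he hx => ?_⟩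
  have h7 : (e.1, b) ∈ Y := hYs e.1 e.2 i b (hHY he) (mem_filter.1 hi).2 (hs _ _ hx)
  exact hfree e (mem_filter.2 ⟨he, h7⟩) hx

end H71V
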